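import Pool.Agent.RHO.Stmts3

/-!
# Row CRD: the number of the states
-/

set_option autoImplicit false

namespace Pool.Agent.RHO.H54c

open Finset

theorem crd (qdf : QDFStmt) : CRDStmt := by
  intro ι _ _ D d s
  have hQ := (qdf ι d).2.2.2.2.2.2
  let F : Fintype (Stt s d) := Fintype.ofInjective (fun x : Stt s d => x.1) Subtype.val_injective
  refine ⟨F, ?_⟩
  have h1 : Fintype.card (Stt s d) ≤ Fintype.card ((Pt ι ⊕ Pt ι) × (Fin D → Qd ι d)) :=
    Fintype.card_le_of_injective (fun x : Stt s d => x.1) Subtype.val_injective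
  refine h1.trans ?_
  have h2 : Fintype.card (Pt ι) = 2 ^ Fintype.card ι := by
    rw [Fintype.card_fun, ZMod.card]
  rw [Fintype.card_prod, Fintype.card_sum, h2, Fintype.card_fun, Fintype.card_fin]
  calc (2 ^ Fintype.card ι + 2 ^ Fintype.card ι) * Fintype.card (Qd ι d) ^ D
      ≤ (2 ^ Fintype.card ι + 2 ^ Fintype.card ι) * (2 ^ ((Fintype.card ι + 1) ^ d)) ^ D :=
        Nat.mul_le_mul_left _ (Nat.pow_le_pow_left hQ D)
    _ = 2 ^ (1 + Fintype.card ι + D * (Fintype.card ι + 1) ^ d) := by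
        rw [← two_mul, ← pow_mul, mul_comm ((Fintype.card ι + 1) ^ d) D, pow_add, pow_add, pow_one]

end Pool.Agent.RHO.H54c
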