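import Pool.Agent.RHO.Stmts3

/-!
# Row NM2: numbers
-/

set_option autoImplicit false

namespace Pool.Agent.RHO.H54c

theorem e1 {a : ℕ} (ha : 4 ≤ a) : 8 * a + 26 ≤ 2 ^ (a + 2) := by
  induction a, ha using Nat.le_induction with
  | base => norm_num
  | succ n hn ih =>
    have : 2 ^ (n + 1 + 2) = 2 * 2 ^ (n + 2) := by ring
    omega

theorem e2 {a : ℕ} (ha : 4 ≤ a) : 35 + 10 * a ≤ 2 ^ (a + 4) := by
  induction a, ha using Nat.le_induction with
  | base => norm_num
  | succ n hn ih =>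
    have : 2 ^ (n + 1 + 4) = 2 * 2 ^ (n + 4) := by ring
    omega

theorem e3 {t : ℕ} (ht : 5 ≤ t) : t ^ 2 < 2 ^ t := by
  induction t, ht using Nat.le_induction with
  | base => norm_num
  | succ n hn ih =>
    have : 2 ^ (n + 1) = 2 * 2 ^ n := by ring
    nlinarith

theorem nm2 : NM2Stmt := by
  intro a ha
  have h1 := e1 ha
  have h2 := e2 ha
  have hpt : pt a ≤ 2 ^ (2 * a + 2) := by
    unfold pt
    calc 2 ^ a * (8 * a + 26) ≤ 2 ^ a * 2 ^ (a + 2) := Nat.mul_le_mul_left _ h1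
      _ = 2 ^ (2 * a + 2) := by rw [← pow_add]; congr 1; ring
  have hpow : ∀ n : ℕ, 1 ≤ 2 ^ n := fun n => Nat.one_le_two_pow
  have hpt1 : 2 ≤ pt a := by
    unfold pt
    calc 2 ≤ 1 * (8 * a + 26) := by omega
      _ ≤ 2 ^ a * (8 * a + 26) := Nat.mul_le_mul_right _ (hpow a)
  have hpT : pT a ≤ 2 ^ (2 * a + 4) := by
    unfold pT
    have h3 : 2 ^ (2 * a + 4) = 4 * 2 ^ (2 * a + 2) := by ring
    have h4 := hpow (2 * a + 2)
    have h5 : 1 ≤ 2 ^ (2 * a + 2) := h4
    omega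
  have hpT1 : 5 ≤ pT a := by
    unfold pT
    omega
  refine ⟨?_, ?_, ?_, ?_, ?_, ?_, ?_, ?_⟩
  · unfold pm; omega
  · unfold pk; omega
  · calc pt a ^ 2 ≤ (2 ^ (2 * a + 2)) ^ 2 := Nat.pow_le_pow_left hpt 2
      _ = 2 ^ (4 * a + 4) := by rw [← pow_mul]; congr 1; ring
      _ < 2 ^ (4 * a + 5) := Nat.pow_lt_pow_right (by norm_num) (by omega)
  · refine hpT.trans_lt (Nat.pow_lt_pow_right (by norm_num) ?_)
    unfold pk; omega
  · unfold pA
    exact Nat.mul_pos (by omega) (by omega)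
  · have hD : pD a + 1 ≤ 2 ^ (34 + 10 * a) := by
      unfold pD
      have h3 : 2 ^ (34 + 10 * a) = 2 * 2 ^ (33 + 10 * a) := by ring
      have h4 := hpow (33 + 10 * a)
      omega
    calc pT a ^ 2 * (pD a + 1) ^ pT a < 2 ^ pT a * (2 ^ (34 + 10 * a)) ^ pT a :=
          Nat.mul_lt_mul_of_lt_of_le (e3 hpT1) (Nat.pow_le_pow_left hD _)
            (by positivity)
      _ = 2 ^ pA a := by
          unfold pA
          rw [← pow_mul, ← pow_add]
          congr 1
          ring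
  · unfold pt
    exact Nat.mul_le_mul_left _ (by omega)
  · -- the number of the states
    have hn : pT a * pA a + 1 ≤ 2 ^ (9 * a) := by
      have h3 : pT a * pA a ≤ 2 ^ (5 * a + 12) := by
        unfold pA
        calc pT a * ((35 + 10 * a) * pT a) ≤ 2 ^ (2 * a + 4) * (2 ^ (a + 4) * 2 ^ (2 * a + 4)) :=
              Nat.mul_le_mul hpT (Nat.mul_le_mul h2 hpT)
          _ = 2 ^ (5 * a + 12) := by
              rw [← pow_add, ← pow_add]
              congr 1
              ring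
      calc pT a * pA a + 1 ≤ 2 ^ (5 * a + 12) + 2 ^ (5 * a + 12) :=
            Nat.add_le_add h3 (hpow _)
        _ = 2 ^ (5 * a + 13) := by ring
        _ ≤ 2 ^ (9 * a) := Nat.pow_le_pow_right (by norm_num) (by omega)
    have hd : pd a ≤ 80 * a ^ 2 := by
      unfold pd pk pm
      obtain ⟨b, rfl⟩ : ∃ b, a = b + 4 := ⟨a - 4, by omega⟩
      have h3 : b + 4 - 1 = b + 3 := by omega
      rw [h3]
      nlinarith
    have h4 : (pT a * pA a + 1) ^ pd a ≤ 2 ^ (720 * a ^ 3) := by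
      calc (pT a * pA a + 1) ^ pd a ≤ (2 ^ (9 * a)) ^ pd a := Nat.pow_le_pow_left hn _
        _ ≤ (2 ^ (9 * a)) ^ (80 * a ^ 2) := Nat.pow_le_pow_right (hpow _) hd
        _ = 2 ^ (720 * a ^ 3) := by
            rw [← pow_mul]
            congr 1
            ring
    have h5 : pD a ≤ 2 ^ (2 * a ^ 3) := by
      unfold pD
      apply Nat.pow_le_pow_right (by norm_num)
      nlinarith [Nat.mul_le_mul ha ha, Nat.mul_le_mul (Nat.mul_le_mul ha ha) (le_refl a)]
    have h6 : pT a * pA a + 1 ≤ 2 ^ (722 * a ^ 3) := by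
      refine hn.trans (Nat.pow_le_pow_right (by norm_num) ?_)
      nlinarith [Nat.mul_le_mul (Nat.mul_le_mul ha ha) (le_refl a)]
    calc 1 + pT a * pA a + pD a * (pT a * pA a + 1) ^ pd a
        = (pT a * pA a + 1) + pD a * (pT a * pA a + 1) ^ pd a := by ring
      _ ≤ 2 ^ (722 * a ^ 3) + 2 ^ (2 * a ^ 3) * 2 ^ (720 * a ^ 3) :=
          Nat.add_le_add h6 (Nat.mul_le_mul h5 h4)
      _ = 2 ^ (722 * a ^ 3 + 1) := by
          rw [← pow_add]
          have : 2 * a ^ 3 + 720 * a ^ 3 = 722 * a ^ 3 := by ring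
          rw [this]
          ring
      _ ≤ 2 ^ (730 * a ^ 3) := by
          apply Nat.pow_le_pow_right (by norm_num)
          have : 1 ≤ a ^ 3 := Nat.one_le_pow _ _ (by omega)
          omega

end Pool.Agent.RHO.H54c
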